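import Pool.Agent.H27.Kr2

set_option autoImplicit false

namespace Pool.Agent.Results.MP_aeebd3_an.No

open Matrix Pool.Agent.H27.Gr
open scoped ComplexOrder

/-- Over the reals the inequality for arbitrary matrices against correlation matrices fails with
the Grothendieck constant, and with every constant below `π - 1`; over the complex numbers it
fails with every constant below `8 / π - 1`. -/
theorem result :
    (KG < Real.pi - 1 ∧ ∃ (k : ℕ) (S B : Matrix (Fin k) (Fin k) ℝ),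
      S.PosSemidef ∧ (∀ i, S i i = 1) ∧ ∀ x : Fin k → ℝ, (∀ i, ‖x i‖ = 1) →
        KG * ‖(Bᴴ * vecMulVec x (star x)).trace‖ < ‖(Bᴴ * S).trace‖) ∧
    (∀ K : ℝ, K < Real.pi - 1 → ∃ (k : ℕ) (S B : Matrix (Fin k) (Fin k) ℝ),
      S.PosSemidef ∧ (∀ i, S i i = 1) ∧ ∀ x : Fin k → ℝ, (∀ i, ‖x i‖ = 1) →
        K * ‖(Bᴴ * vecMulVec x (star x)).trace‖ < ‖(Bᴴ * S).trace‖) ∧
    (∀ K : ℝ, K < 8 / Real.pi - 1 → ∃ (k : ℕ) (S B : Matrix (Fin k) (Fin k) ℂ),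
      S.PosSemidef ∧ (∀ i, S i i = 1) ∧ ∀ x : Fin k → ℂ, (∀ i, ‖x i‖ = 1) →
        K * ‖(Bᴴ * vecMulVec x (star x)).trace‖ < ‖(Bᴴ * S).trace‖) :=
  ⟨⟨KG_lt, real_case _ KG_lt⟩, real_case, complex_case⟩

end Pool.Agent.Results.MP_aeebd3_an.No
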